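import Pool.Agent.H.MP_f5ceca_al.F.Final

/-!
The word problem is decidable in a variety of associative algebras over a constructive field `K` of
characteristic zero if and only if the variety does not contain `W_K`.
-/

namespace Pool.Agent.Results.MP_f5ceca_al.Full

universe u

/-- A coding of the elements of the field by natural numbers such that equality is decidable and
addition, multiplication and negation are computable. -/
structure Coding (K : Type u) [Field K] where
  /-- the element with a given code -/
  val : ℕ → K
  surj : Function.Surjective val
  eq_dec : ComputablePred fun p : ℕ × ℕ => val p.1 = val p.2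
  /-- addition of codes -/
  add : ℕ → ℕ → ℕ
  add_comp : Computable₂ add
  val_add : ∀ i j, val (add i j) = val i + val j
  /-- multiplication of codes -/
  mul : ℕ → ℕ → ℕ
  mul_comp : Computable₂ mul
  val_mul : ∀ i j, val (mul i j) = val i * val j
  /-- negation of codes -/
  neg : ℕ → ℕ
  neg_comp : Computable neg
  val_neg : ∀ i, val (neg i) = - val i

/-- A nonempty word in the letters `0, …, k - 1`: the first letter and the list of the others. -/
abbrev Word (k : ℕ) : Type := Fin k × List (Fin k)

/-- The code of an element of the free algebra without constant term: a list of pairs consisting of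
the code of a coefficient and a nonempty word. -/
abbrev Code (k : ℕ) : Type := List (ℕ × Word k)

/-- The monomial given by a nonempty word. -/
noncomputable def monomial (K : Type u) [Field K] {k : ℕ} (w : Word k) : FreeAlgebra K (Fin k) :=
  FreeAlgebra.ι K w.1 * (w.2.map (FreeAlgebra.ι K)).prod

/-- The element of the free algebra given by a code. -/
noncomputable def value {K : Type u} [Field K] (cod : Coding K) {k : ℕ} (P : Code k) :
    FreeAlgebra K (Fin k) :=
  (P.map fun p => cod.val p.1 • monomial K p.2).sum

/-- The (not necessarily unital) associative `K`-algebra `A` satisfies the polynomial identity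
`f = 0`; the value of `f` is computed in the unitization of `A`. -/
def IsIdentity {K : Type u} [Field K] {X : Type} (f : FreeAlgebra K X) (A : Type u)
    [NonUnitalRing A] [Module K A] [IsScalarTower K A A] [SMulCommClass K A A] : Prop :=
  ∀ v : X → A, FreeAlgebra.lift K (fun i => ((v i : A) : Unitization K A)) f = 0

/-- `A` belongs to the variety given by the set `S` of identities. -/
def Satisfies {K : Type u} [Field K] (S : Set (FreeAlgebra K ℕ)) (A : Type u)
    [NonUnitalRing A] [Module K A] [IsScalarTower K A A] [SMulCommClass K A A] : Prop :=
  ∀ f ∈ S, IsIdentity f A

/-- `A` satisfies the identities `x[y,z][t,u]v = 0` and `x[y,z,t]u = 0`. -/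
def IsW (A : Type u) [NonUnitalRing A] : Prop :=
  (∀ x y z t u v : A, x * (y * z - z * y) * (t * u - u * t) * v = 0) ∧
  (∀ x y z t u : A, x * ((y * z - z * y) * t - t * (y * z - z * y)) * u = 0)

/-- The variety given by `S` contains `W_K`. -/
def IncludesW {K : Type u} [Field K] (S : Set (FreeAlgebra K ℕ)) : Prop :=
  ∀ (A : Type u) [NonUnitalRing A] [Module K A] [IsScalarTower K A A] [SMulCommClass K A A],
    IsW A → Satisfies S A

/-- The identities in `k` variables of the variety given by `S`. -/
def identities {K : Type u} [Field K] (S : Set (FreeAlgebra K ℕ)) (k : ℕ) :
    Set (FreeAlgebra K (Fin k)) :=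
  {f | ∀ (A : Type u) [NonUnitalRing A] [Module K A] [IsScalarTower K A A]
    [SMulCommClass K A A], Satisfies S A → IsIdentity f A}

/-- The word problem is decidable in the variety given by `S`: for every number `k` of generators
and every finite list `R` of relators it is decidable whether an element is zero in the algebra
presented in the variety by these generators and relators. -/
def WordProblemDecidable {K : Type u} [Field K] (cod : Coding K) (S : Set (FreeAlgebra K ℕ)) :
    Prop :=
  ∀ (k : ℕ) (R : List (Code k)), ComputablePred fun P : Code k =>
    value cod P ∈ TwoSidedIdeal.span (identities S k ∪ {g | ∃ r ∈ R, value cod r = g})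

/-- **Theorem.** Over a constructive field `K` of characteristic zero the word problem is decidable in
a variety of associative `K`-algebras if and only if the variety does not contain `W_K`. -/
theorem result {K : Type u} [Field K] [CharZero K] (cod : Coding K)
    (S : Set (FreeAlgebra K ℕ)) : WordProblemDecidable cod S ↔ ¬ IncludesW S := by
  let κ : Pool.Agent.H.MP_f5ceca_al.Conv.CField K :=
    { c := cod.val
      surj := cod.surj
      eq_cp := cod.eq_dec
      add := cod.add
      add_comp := cod.add_comp
      c_add := cod.val_add
      mul := cod.mul
      mul_comp := cod.mul_comp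
      c_mul := cod.val_mul
      neg := cod.neg
      neg_comp := cod.neg_comp
      c_neg := cod.val_neg }
  exact Pool.Agent.H.MP_f5ceca_al.F.full κ S

end Pool.Agent.Results.MP_f5ceca_al.Full
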